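import Mathlib
import Pool.Agent.Helper583.ClMain

/-! Third order definability of the cardinals `ℵ_n`, `n` finite. -/

set_option autoImplicit false

namespace Pool.Agent.Y100.CLO

universe u

open Pool.Agent.Helper583 Cardinal Set

section card

variable {A : Type u}

/-- the range of `f` injects into the range of `g` -/
def Inj (f g : A → A) : Prop :=
  ∃ h : A → A, (∀ x, ∃ y, h (f x) = g y) ∧ (∀ x y, h (f x) = h (f y) → f x = f y)

theorem Inj_iff (f g : A → A) : Inj f g ↔ #(range f) ≤ #(range g) := by
  classical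
  constructor
  · rintro ⟨h, h1, h2⟩
    refine Cardinal.mk_le_of_injective
      (f := fun z : range f => (⟨h z.1, by
        obtain ⟨x, hx⟩ := z.2
        obtain ⟨y, hy⟩ := h1 x
        exact ⟨y, by rw [← hy, hx]⟩⟩ : range g)) ?_
    rintro ⟨_, x, rfl⟩ ⟨_, y, rfl⟩ hxy
    exact Subtype.ext (h2 x y (congrArg Subtype.val hxy))
  · intro h
    obtain ⟨e⟩ := Cardinal.le_def _ _ |>.mp h
    refine ⟨fun a => if ha : a ∈ range f then (e ⟨a, ha⟩).1 else a, fun x => ?_, fun x y hxy => ?_⟩
    · have hx : f x ∈ range f := ⟨x, rfl⟩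
      obtain ⟨y, hy⟩ := (e ⟨f x, hx⟩).2
      refine ⟨y, ?_⟩
      simp only [dif_pos hx]
      exact hy.symm
    · have hx : f x ∈ range f := ⟨x, rfl⟩
      have hy : f y ∈ range f := ⟨y, rfl⟩
      simp only [dif_pos hx, dif_pos hy] at hxy
      exact congrArg Subtype.val (e.injective (Subtype.ext hxy))

/-- the range of `f` has less than `ℵ_n` elements -/
def Lv : ℕ → (A → A) → Prop
  | 0, f => ∀ h : A → A, (∀ x, ∃ y, h (f x) = f y) →
      (∀ x y, h (f x) = h (f y) → f x = f y) → ∀ y, ∃ x, h (f x) = f y
  | n + 1, f => ∀ g : A → A, Inj g f → (Lv n g ∨ Inj f g)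

theorem exists_range {κ : Cardinal.{u}} (h0 : κ ≠ 0) (h : κ ≤ #A) :
    ∃ g : A → A, #(range g) = κ := by
  classical
  obtain ⟨s, hs⟩ := Cardinal.le_mk_iff_exists_set.mp h
  have hne : s.Nonempty := by
    rw [Set.nonempty_iff_ne_empty]
    rintro rfl
    rw [Cardinal.mk_eq_zero] at hs
    exact h0 hs.symm
  obtain ⟨a, ha⟩ := hne
  refine ⟨fun x => if x ∈ s then x else a, ?_⟩
  have : range (fun x => if x ∈ s then x else a) = s := by
    ext y
    constructor
    · rintro ⟨x, rfl⟩
      by_cases hx : x ∈ s
      · simpa [hx] using hx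
      · simp [hx, ha]
    · intro hy
      exact ⟨y, by simp [hy]⟩
  rw [this, hs]

theorem Lv_iff (n : ℕ) : ∀ f : A → A, Lv n f ↔ #(range f) < ℵ_ (n : Ordinal.{u}) := by
  classical
  induction n with
  | zero =>
    intro f
    rw [Nat.cast_zero, Cardinal.aleph_zero, Cardinal.lt_aleph0_iff_finite]
    constructor
    · intro h
      by_contra hfin
      rw [not_finite_iff_infinite] at hfin
      -- an injective non-surjective self map of the range
      obtain ⟨e, he⟩ : ∃ e : range f → range f, Function.Injective e ∧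
          ¬ Function.Surjective e := by
        by_contra hc
        push Not at hc
        have : Finite (range f) := by
          rw [← not_infinite_iff_finite]
          intro _
          obtain ⟨ν⟩ : Nonempty (ℕ ↪ range f) := ⟨Infinite.natEmbedding _⟩
          let e : range f → range f := fun z =>
            if hz : ∃ k, ν k = z then ν (hz.choose + 1) else z
          have he : Function.Injective e := by
            intro z w hzw
            by_cases hz : ∃ k, ν k = z
            · by_cases hw : ∃ k, ν k = w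
              · simp only [e, dif_pos hz, dif_pos hw] at hzw
                have h1 := ν.injective hzw
                rw [← hz.choose_spec, ← hw.choose_spec]
                congr 1
                omega
              · simp only [e, dif_pos hz, dif_neg hw] at hzw
                exact absurd ⟨_, hzw⟩ hw
            · by_cases hw : ∃ k, ν k = w
              · simp only [e, dif_neg hz, dif_pos hw] at hzw
                exact absurd ⟨_, hzw.symm⟩ hz
              · simpa only [e, dif_neg hz, dif_neg hw] using hzw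
          obtain ⟨z, hz⟩ := hc e he (ν 0)
          by_cases hz' : ∃ k, ν k = z
          · simp only [e, dif_pos hz'] at hz
            have := ν.injective hz
            omega
          · simp only [e, dif_neg hz'] at hz
            exact hz' ⟨0, hz.symm⟩
        exact not_finite_iff_infinite.mpr hfin this
      refine he.2 ?_
      rintro ⟨_, y, rfl⟩
      have h3 := h (fun a => if ha : a ∈ range f then (e ⟨a, ha⟩).1 else a) ?_ ?_ y
      · obtain ⟨x, hx⟩ := h3
        have hx' : f x ∈ range f := ⟨x, rfl⟩
        simp only [dif_pos hx'] at hx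
        exact ⟨⟨f x, hx'⟩, Subtype.ext hx⟩
      · intro x
        have hx' : f x ∈ range f := ⟨x, rfl⟩
        obtain ⟨y, hy⟩ := (e ⟨f x, hx'⟩).2
        refine ⟨y, ?_⟩
        simp only [dif_pos hx']
        exact hy.symm
      · intro x y hxy
        have hx : f x ∈ range f := ⟨x, rfl⟩
        have hy : f y ∈ range f := ⟨y, rfl⟩
        simp only [dif_pos hx, dif_pos hy] at hxy
        exact congrArg Subtype.val (he.1 (Subtype.ext hxy))
    · intro hfin h h1 h2 y
      let e : range f → range f := fun z => ⟨h z.1, by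
        obtain ⟨x, hx⟩ := z.2
        obtain ⟨y, hy⟩ := h1 x
        exact ⟨y, by rw [← hy, hx]⟩⟩
      have he : Function.Injective e := by
        rintro ⟨_, x, rfl⟩ ⟨_, y, rfl⟩ hxy
        exact Subtype.ext (h2 x y (congrArg Subtype.val hxy))
      obtain ⟨⟨_, x, rfl⟩, hx⟩ := (Finite.injective_iff_surjective.mp he) ⟨f y, y, rfl⟩
      exact ⟨x, congrArg Subtype.val hx⟩
  | succ n ih =>
    intro f
    have e : ℵ_ ((n + 1 : ℕ) : Ordinal.{u}) = Order.succ (ℵ_ (n : Ordinal.{u})) := by
      rw [Nat.cast_succ, ← Order.succ_eq_add_one, Cardinal.aleph_succ]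
    rw [e, Order.lt_succ_iff]
    constructor
    · intro h
      by_contra hc
      push Not at hc
      obtain ⟨g, hg⟩ := exists_range (A := A) (κ := ℵ_ (n : Ordinal.{u}))
        (Cardinal.aleph_pos _).ne' (hc.le.trans (Cardinal.mk_set_le _))
      rcases h g ((Inj_iff _ _).mpr (by rw [hg]; exact hc.le)) with h1 | h1
      · rw [ih, hg] at h1
        exact lt_irrefl _ h1
      · rw [Inj_iff, hg] at h1
        exact absurd h1 (not_le.mpr hc)
    · intro h g hg
      rw [Inj_iff] at hg
      by_cases h1 : #(range g) < ℵ_ (n : Ordinal.{u})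
      · exact Or.inl ((ih g).mpr h1)
      · right
        rw [Inj_iff]
        exact h.trans (not_lt.mp h1)

/-- `A` has exactly `ℵ_n` elements -/
def Cd (n : ℕ) (A : Type u) : Prop :=
  ∃ f : A → A, (∀ x, ∃ y, f y = x) ∧ Lv (n + 1) f ∧ ¬ Lv n f

theorem Cd_iff (n : ℕ) : Cd n A ↔ #A = ℵ_ (n : Ordinal.{u}) := by
  have e : ℵ_ ((n + 1 : ℕ) : Ordinal.{u}) = Order.succ (ℵ_ (n : Ordinal.{u})) := by
    rw [Nat.cast_succ, ← Order.succ_eq_add_one, Cardinal.aleph_succ]
  constructor
  · rintro ⟨f, h1, h2, h3⟩
    have h4 : range f = Set.univ := Set.range_eq_univ.mpr h1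
    rw [Lv_iff, h4, Cardinal.mk_univ, e, Order.lt_succ_iff] at h2
    rw [Lv_iff, h4, Cardinal.mk_univ, not_lt] at h3
    exact le_antisymm h2 h3
  · intro h
    refine ⟨id, fun x => ⟨x, rfl⟩, ?_, ?_⟩
    · rw [Lv_iff, Set.range_id, Cardinal.mk_univ, e, Order.lt_succ_iff, h]
    · rw [Lv_iff, Set.range_id, Cardinal.mk_univ, h]
      exact lt_irrefl _

end card

section def3

open Def3

variable {p q r : ℕ}

theorem def_hf (a b c : Fin q) (i j : Fin p) :
    Def3.{u} (p := p) (q := q) (r := r) (fun A x f S => f a (f b (x i)) = f c (x j)) :=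
  (exE (P := fun A x f S z => f c (x j) = z ∧ f a (f b (x i)) = z) (and (app _ _ _)
    (app2 _ _ _ _))).congr (by intro A x f S; simp)

theorem def_hh (a b : Fin q) (i j : Fin p) :
    Def3.{u} (p := p) (q := q) (r := r) (fun A x f S => f a (f b (x i)) = f a (f b (x j))) :=
  (exE (P := fun A x f S z => f a (f b (x j)) = z ∧ f a (f b (x i)) = z) (and (app2 _ _ _ _)
    (app2 _ _ _ _))).congr (by intro A x f S; simp)

theorem def_inj (k l : Fin q) :
    Def3.{u} (p := p) (q := q) (r := r) (fun A x f S => Inj (f k) (f l)) :=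
  exF (and (allE (exE (def_hf 0 k.succ l.succ _ _)))
    (allE (allE (imp (def_hh 0 k.succ _ _) (sameE _ _ _ _)))))

theorem def_Lv (n : ℕ) : ∀ {p q r : ℕ} (k : Fin q),
    Def3.{u} (p := p) (q := q) (r := r) (fun A x f S => Lv n (f k)) := by
  induction n with
  | zero =>
    intro p q r k
    exact allF (imp (allE (exE (def_hf 0 k.succ k.succ _ _)))
      (imp (allE (allE (imp (def_hh 0 k.succ _ _) (sameE _ _ _ _))))
        (allE (exE (def_hf 0 k.succ k.succ _ _)))))
  | succ n ih =>
    intro p q r k
    exact allF (imp (def_inj 0 k.succ) (or (ih 0) (def_inj k.succ 0)))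

theorem def_Cd (n : ℕ) :
    Def3.{u} (p := 0) (q := 0) (r := 0) (fun A _ _ _ => Cd n A) :=
  exF (and (allE (exE (app _ _ _))) (and (def_Lv (n + 1) 0) (not (def_Lv n 0))))

end def3

end Pool.Agent.Y100.CLO
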